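import Pool.Agent.H93.HQ.Targets2

/-! # Board HQ, module FIII: the third final statement -/

namespace Pool.Agent.H90.HQ
open MeasureTheory Set Filter Topology Pool.Agent.H80.HS Pool.Agent.H93.HQ
open scoped ContDiff ENNReal

theorem fiii_sg_pos {n : ℕ} (hn : 1 ≤ n) {s : ℝ} (hs : 0 ≤ s) : 0 < sg n s := by
  have hn' : (1 : ℝ) ≤ n := by exact_mod_cast hn
  unfold sg
  have h1 : 0 < Real.Gamma n := Real.Gamma_pos_of_pos (by linarith)
  have h2 : 0 < Real.Gamma ((2 * n + s) / 4) := Real.Gamma_pos_of_pos (by linarith)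
  have h3 : 0 < Real.Gamma ((2 * n + 2 + s) / 4) := Real.Gamma_pos_of_pos (by linarith)
  positivity

theorem pf_FIII (h1 : U_LP) (h2 : U_ST) (h3 : U_EX) (h4 : U_N4) (h5 : U_N5) (h6 : U_SQ)
    (h7 : T_G0) : U_FIII := by
  obtain ⟨A₁, hA₁⟩ := h4
  obtain ⟨A₂, hA₂⟩ := h5
  refine ⟨max A₁ A₂, ?_⟩
  intro n hn p hp1 hp2 𝕜 _
  have hn' : (1 : ℝ) ≤ n := by exact_mod_cast hn
  have hp0 : 1 < p := by linarith
  obtain ⟨hL0, hL⟩ := hA₁ n hn p hp1 hp2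
  obtain ⟨hU0, hU⟩ := hA₂ n hn p hp1 hp2
  have hs0 : 0 < sg n 0 := fiii_sg_pos hn le_rfl
  have hs1 : 0 < sg n (2 * n + 2) := fiii_sg_pos hn (by linarith)
  obtain ⟨C, hC, hLC, hCU⟩ := h3 𝕜 n p (LB2 n p) (UB n p (sg n 0)) hL0
    (h2 n hn 𝕜 p (sg n 0) hp0 hp2 hs0) (fun C hC => h1 n hn p C hp0 hp2 (h7 𝕜 n p C hC))
  have hC0 : 0 < C := lt_of_lt_of_le hL0 hLC
  refine ⟨C, hC0, hC, ?_⟩
  rw [← h6 n hn]
  have hx : 0 < 2 * (n : ℝ) + 2 - p := by linarith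
  have hy : 0 < 2 * (n : ℝ) + 1 := by linarith
  have hq : 0 < (2 * (n : ℝ) + 2 - p) / (2 * n + 1) := div_pos hx hy
  have hlog : Real.log (C * sg n (2 * n + 2) * ((2 * (n : ℝ) + 2 - p) / (2 * n + 1)) ^ (p - 1)) =
      Real.log C - MC n p := by
    rw [Real.log_mul (mul_pos hC0 hs1).ne' (Real.rpow_pos_of_pos hq _).ne',
      Real.log_mul hC0.ne' hs1.ne', Real.log_rpow hq]
    unfold MC
    have : Real.log ((2 * (n : ℝ) + 1) / (2 * n + 2 - p)) =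
        - Real.log ((2 * (n : ℝ) + 2 - p) / (2 * n + 1)) := by
      rw [← Real.log_inv, inv_div]
    rw [this]
    ring
  rw [hlog]
  have hlC1 : Real.log (LB2 n p) ≤ Real.log C := Real.log_le_log hL0 hLC
  have hlC2 : Real.log C ≤ Real.log (UB n p (sg n 0)) := Real.log_le_log hC0 hCU
  have hln : 0 ≤ Real.log ((n : ℝ) + 1) := Real.log_nonneg (by linarith)
  have hK : 0 ≤ (2 * (n : ℝ) + 2 - p) ^ ((2 * (n : ℝ) + 1) / (2 * n + 2)) :=
    Real.rpow_nonneg hx.le _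
  have hm1 : A₁ * Real.log (n + 1) * (2 * n + 2 - p) ^ ((2 * (n : ℝ) + 1) / (2 * n + 2)) ≤
      max A₁ A₂ * Real.log (n + 1) * (2 * n + 2 - p) ^ ((2 * (n : ℝ) + 1) / (2 * n + 2)) :=
    mul_le_mul_of_nonneg_right (mul_le_mul_of_nonneg_right (le_max_left _ _) hln) hK
  have hm2 : A₂ * Real.log (n + 1) * (2 * n + 2 - p) ^ ((2 * (n : ℝ) + 1) / (2 * n + 2)) ≤
      max A₁ A₂ * Real.log (n + 1) * (2 * n + 2 - p) ^ ((2 * (n : ℝ) + 1) / (2 * n + 2)) :=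
    mul_le_mul_of_nonneg_right (mul_le_mul_of_nonneg_right (le_max_right _ _) hln) hK
  rw [abs_le]
  constructor <;> linarith

end Pool.Agent.H90.HQ
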